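import Pool.Agent.H36.AO.PStmts
import Pool.Agent.H94.CC.Stmts

/-!
Module BDX: the bad graph.
-/

set_option linter.unusedVariables false
set_option linter.unusedSectionVars false
set_option synthInstance.maxSize 100000

namespace AO.BP

open SW

theorem bdx_gc {a b : ℕ → ℕ} (h : gc a = gc b) : a = b := by
  funext k
  have h1 := congrFun h (Nat.pair k (a k))
  unfold gc at h1
  simp only [Nat.unpair_pair, decide_eq_decide] at h1
  exact (h1.1 trivial).symm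

section
variable {M : Type} [SetStr M] [ZF M]

/-- the value at `d` -/
noncomputable def bdx_v (gg c d : M) : M :=
  sep om (fun j => ∃ p, E p gg ∧ E (fct c j d d) p)

/-- the function -/
noncomputable def bdx_f (gg c l : M) : M := gr l (fun d => bdx_v gg c d)

theorem bdx_mem {gg c d j : M} : E j (bdx_v gg c d) ↔ E j om ∧ ∃ p, E p gg ∧
    E (fct c j d d) p := by
  unfold bdx_v; rw [mem_sep' inferInstance]

theorem bdx_app {gg c l d : M} (hd : E d l) : app (bdx_f gg c l) d = bdx_v gg c d := by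
  unfold bdx_f
  exact app_gr (f := fun d => bdx_v gg c d) (by unfold bdx_v; infer_instance) hd

end

/-- BDX -/
theorem ao_bdx (hgnr : GNRStmt) (hcvc : CVCStmt) (hcpr : CPRStmt) (habs : ABSStmt)
    (hnux : NUXStmt) : BDXStmt := by
  intro M _ _ _ l T F G hB inst
  have he := embF hB.gen
  have ht := traF hB.gen
  have ab := habs M F G hB.gen
  have cp := hcpr M F G hB.gf.le hB.ccc hB.gen
  have nx := hnux M F G hB.gen
  obtain ⟨a, t, h1, h2, h3, h4, h5⟩ := hgnr M l T F G hB.mr hB.gf hB.gen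
  have hl := hB.tm.ord
  -- the values
  have key : ∀ (g : ℕ) (d : M) (j : ℕ),
      E (nu j) (bdx_v (gg F G) (nu g) (emb F G d)) ↔
      ∃ p, G p ∧ E (fct (nu g) (nu j) d d) p := by
    intro g d j
    rw [bdx_mem]
    have hfe : fct (nu g : Ext F G) (nu j) (emb F G d) (emb F G d) =
        emb F G (fct (nu g) (nu j) d d) := by
      rw [← ab.fct, nx.nu, nx.nu]
    rw [hfe]
    constructor
    · rintro ⟨-, p, hp, h⟩
      obtain ⟨q, hq, rfl⟩ := (he.G_mem _).1 hp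
      exact ⟨q, hq, (he.mem _ _).1 h⟩
    · rintro ⟨p, hp, h⟩
      exact ⟨CUR.nu_mem_om j, emb F G p, (he.G_mem _).2 ⟨p, hp, rfl⟩, (he.mem _ _).2 h⟩
  have hY : ∀ (g : ℕ) (d : M), E d l → app (bdx_f (gg F G) (nu g) (emb F G l)) (emb F G d) =
      bdx_v (gg F G) (nu g) (emb F G d) := fun g d hd => bdx_app ((he.mem _ _).2 hd)
  have hyt : ∀ d : Ix l, AO.rb (app (bdx_f (gg F G) (nu 1) (emb F G l)) (emb F G d.1)) =
      gc (t d) := by
    intro d
    funext j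
    unfold AO.rb gc
    rw [hY 1 d.1 d.2]
    simp only [decide_eq_decide]
    exact (key 1 d.1 j).trans (h2 d j)
  have hwa : ∀ d : Ix l, AO.rb (app (bdx_f (gg F G) (nu 0) (emb F G l)) (emb F G d.1)) =
      gc (a d) := by
    intro d
    funext j
    unfold AO.rb gc
    rw [hY 0 d.1 d.2]
    simp only [decide_eq_decide]
    exact (key 0 d.1 j).trans (h1 d j)
  refine ⟨bdx_f (gg F G) (nu 1) (emb F G l), bdx_f (gg F G) (nu 0) (emb F G l), ?_, ?_, ?_, ?_, ht.ord l hl, ?_, ?_⟩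
  · intro d hd z hz
    obtain ⟨d0, hd0, rfl⟩ := he.trans _ _ hd
    rw [hY 1 d0 hd0] at hz
    exact (bdx_mem.1 hz).1
  · intro d hd z hz
    obtain ⟨d0, hd0, rfl⟩ := he.trans _ _ hd
    rw [hY 0 d0 hd0] at hz
    exact (bdx_mem.1 hz).1
  · intro d d' hd hd' h
    obtain ⟨d0, hd0, rfl⟩ := he.trans _ _ hd
    obtain ⟨d1, hd1, rfl⟩ := he.trans _ _ hd'
    have h6 := (hyt ⟨d0, hd0⟩).symm.trans ((congrArg AO.rb h).trans (hyt ⟨d1, hd1⟩))
    have h7 := h5 _ _ (bdx_gc h6)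
    rw [show d0 = d1 from congrArg Subtype.val h7]
  · intro d d' hd hd' h
    obtain ⟨d0, hd0, rfl⟩ := he.trans _ _ hd
    obtain ⟨d1, hd1, rfl⟩ := he.trans _ _ hd'
    have h6 := (hwa ⟨d0, hd0⟩).symm.trans ((congrArg AO.rb h).trans (hwa ⟨d1, hd1⟩))
    have h7 := h4 _ _ (bdx_gc h6)
    rw [show d0 = d1 from congrArg Subtype.val h7]
  · intro d n hd hn
    obtain ⟨d0, hd0, rfl⟩ := he.trans _ _ hd
    rw [ab.nb] at hn
    obtain ⟨n0, hn0, rfl⟩ := he.trans _ _ hn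
    have hn0l : E n0 l := hl.trans hd0 (mem_nb.1 hn0).1
    exact ⟨t ⟨d0, hd0⟩, a ⟨n0, hn0l⟩, hyt ⟨d0, hd0⟩, hwa ⟨n0, hn0l⟩,
      h3 ⟨d0, hd0⟩ ⟨n0, hn0l⟩ hn0⟩
  · intro g hg
    obtain ⟨H, hH1, hH2⟩ := hcvc M F G hB.gf.le hB.ccc hB.gen l l (fun x => app g x)
      inferInstance (fun x hx => hg _ ((he.mem _ _).2 hx))
    obtain ⟨d, hd, hd1, hd2⟩ := hB.tm.unc H (fun n hn => (hH1 n hn).1)
    refine ⟨emb F G d, (he.mem _ _).2 hd, ?_, ?_⟩
    · rw [ab.nb]
      exact fun h => hd1 (cp.cbd _ h)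
    · intro n hn hdn
      rw [ab.nb] at hn
      obtain ⟨n0, hn0, rfl⟩ := he.trans _ _ hn
      exact hd2 n0 hn0 (hH2 n0 d (hl.trans hd (mem_nb.1 hn0).1) hd hdn)

end AO.BP
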