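import Pool.Agent.H36.AO.PStmts
import Pool.Agent.H94.CC.Stmts

/-!
Module BSG: good orders of sets of size aleph one.
-/

set_option linter.unusedVariables false
set_option linter.unusedSectionVars false
set_option synthInstance.maxSize 100000

namespace AO.BP

open SW

/-- BSG -/
theorem ao_bsg (half : ALFStmt) (hcbt : CBTStmt) : BSGStmt := by
  intro N _ _ V ⟨w, hw, f, hf⟩
  have hW : IsW w := ((half N).w1 w).1 hw
  have cb := hcbt N
  have hwo := hW.1
  -- the least index of a vertex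
  have hex : ∀ v, E v V → ∃ i, (E i w ∧ v = app f i) ∧ ∀ j, E j i → ¬ (E j w ∧ v = app f j) := by
    intro v hv
    obtain ⟨i, hi, hi'⟩ := hf v hv
    obtain ⟨j, -, h1, h2, -⟩ := ord_min (C := fun j : N => E j w ∧ v = app f j) inferInstance
      (hwo.mem hi) ⟨hi, hi'⟩
    exact ⟨j, h1, h2⟩
  obtain ⟨r, hr⟩ : ∃ r : N → N, r = fun v => the (fun i => (E i w ∧ v = app f i) ∧
      ∀ j, E j i → ¬ (E j w ∧ v = app f j)) := ⟨_, rfl⟩
  have hrd : Fn1 r := by rw [hr]; infer_instance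
  have _ : ∀ {n : ℕ} {t : (Fin n → N) → N} [DfT t], DfT (fun v => r (t v)) := fun {n t} _ =>
    hrd.comp1 inferInstance
  have hr1 : ∀ v, E v V → E (r v) w ∧ v = app f (r v) := by
    intro v hv
    obtain ⟨i, h1, h2⟩ := hex v hv
    have : r v = i := by
      rw [hr]
      refine the_eq ⟨h1, h2⟩ fun z hz => ?_
      rcases (hwo.mem hz.1.1).tri (hwo.mem h1.1) with h | h | h
      · exact absurd hz.1 (h2 z h)
      · exact h
      · exact absurd h1 (hz.2 i h)
    rw [this]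
    exact h1
  have hinj : ∀ v v', E v V → E v' V → r v = r v' → v = v' := fun v v' hv hv' h => by
    rw [(hr1 v hv).2, (hr1 v' hv').2, h]
  have hmem : ∀ v v', E (opair v v') (sep (prod V V) (fun z => E (r (CC.fst z)) (r (CC.snd z)))) ↔
      (E v V ∧ E v' V) ∧ E (r v) (r v') := by
    intro v v'
    rw [mem_sep' inferInstance, mem_prod, CC.fst_opair, CC.snd_opair]
  refine ⟨sep (prod V V) (fun z => E (r (CC.fst z)) (r (CC.snd z))), ?_, ?_, ?_, ?_, ?_⟩
  · intro v v' hv hv' hne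
    rw [hmem, hmem]
    rcases (hwo.mem (hr1 v hv).1).tri (hwo.mem (hr1 v' hv').1) with h | h | h
    · exact Or.inl ⟨⟨hv, hv'⟩, h⟩
    · exact absurd (hinj v v' hv hv' h) hne
    · exact Or.inr ⟨⟨hv', hv⟩, h⟩
  · intro v v' hv hv' h h'
    rw [hmem] at h h'
    exact not_mem_cycle h.2 h'.2
  · intro u v v' hu hv hv' h h'
    rw [hmem] at h h' ⊢
    exact ⟨⟨hu, hv'⟩, (hwo.mem (hr1 v' hv').1).trans h'.2 h.2⟩
  · intro S hS ⟨v, hv⟩
    obtain ⟨i, -, ⟨u, hu, hi⟩, hmin, -⟩ := ord_min (C := fun i : N => ∃ u, E u S ∧ i = r u)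
      inferInstance (hwo.mem (hr1 v (hS v hv)).1) ⟨v, hv, rfl⟩
    refine ⟨u, hu, fun v' hv' h => ?_⟩
    rw [hmem] at h
    rw [hi] at hmin
    exact hmin _ h.2 ⟨v', hv', rfl⟩
  · intro v hv
    refine ⟨img (r v) (fun i => app f i), cb.img _ inferInstance (hW.2.2 _ (hr1 v hv).1),
      fun v' hv' h _ => ?_⟩
    rw [hmem] at h
    refine (mem_img' inferInstance).2 ⟨r v', h.2, (hr1 v' hv').2⟩

end AO.BP
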