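import Pool.Agent.H36.AO.PStmts
import Pool.Agent.H94.CC.Stmts

/-!
Module CSU: countable supports.
-/

set_option linter.unusedVariables false
set_option linter.unusedSectionVars false
set_option synthInstance.maxSize 100000

namespace AO.BP

open SW

/-- CSU -/
theorem ao_csu (hnam : NAMStmt) (hevf : EVFStmt) (hcfa : CFAStmt) (hcbt : CBTStmt) :
    CSUStmt := by
  intro M _ _ _ l T F G hB _ X x ⟨σ, hσ, hx⟩
  have cb := hcbt M
  have ev := hevf M F G hB.mr.std hB.gen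
  have cf := hcfa M l T F hB.mr hB.gf
  have hσ' : Sub σ (prod om F.P) := by
    intro z hz
    obtain ⟨j, q, hj, hq, rfl⟩ := mem_prod'.1 (hσ z hz)
    exact mem_prod.2 ⟨hj, (mem_PD.1 hq).1⟩
  obtain ⟨τ, h1, h2, h3⟩ := hnam M F G hB.gf.le hB.ccc hB.gen σ hσ'
  have hY : ∀ i, E i (sUn (img τ (fun z => SP (CC.snd z)))) ↔ ∃ z, E z τ ∧ E i (SP (CC.snd z)) := by
    intro i
    rw [mem_sUn]
    constructor
    · rintro ⟨y, hy, hi⟩
      obtain ⟨z, hz, rfl⟩ := (mem_img' inferInstance).1 hy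
      exact ⟨z, hz, hi⟩
    · rintro ⟨z, hz, hi⟩
      exact ⟨_, (mem_img' inferInstance).2 ⟨z, hz, rfl⟩, hi⟩
  have hz1 : ∀ z, E z τ → ∃ j q, z = opair j q ∧ E j om ∧ E q F.P ∧ Sub (SP q) X := by
    intro z hz
    obtain ⟨j, q, hj, hq, rfl⟩ := mem_prod'.1 (hσ z (h1 z hz))
    exact ⟨j, q, rfl, hj, mem_PD.1 hq⟩
  refine ⟨τ, sUn (img τ (fun z => SP (CC.snd z))), h2, ?_, ?_, ?_, ?_, ?_⟩
  · refine cb.iUn _ inferInstance h2 fun z hz => cb.fin ?_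
    obtain ⟨j, q, rfl, hj, hq, -⟩ := hz1 z hz
    rw [CC.snd_opair]
    unfold SP
    exact finF.bun (finF.img _ inferInstance (cf.fnt q hq)) (finF.img _ inferInstance (cf.fnt q hq))
  · intro i hi
    obtain ⟨z, hz, hi⟩ := (hY i).1 hi
    obtain ⟨j, q, rfl, hj, hq, hs⟩ := hz1 z hz
    rw [CC.snd_opair] at hi
    exact hs i hi
  · intro i hi
    obtain ⟨z, hz, hi⟩ := (hY i).1 hi
    obtain ⟨j, q, rfl, hj, hq, hs⟩ := hz1 z hz
    rw [CC.snd_opair] at hi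
    obtain ⟨u, hu, h⟩ := mem_SP.1 hi
    obtain ⟨g, j', i', k', rfl, -, h4, h5, -⟩ := cf.fct q u hq hu
    rw [x1_fct, x2_fct] at h
    rcases h with h | h
    · rw [h]; exact h4
    · rw [h]; exact h5
  · intro z hz
    obtain ⟨j, q, rfl, hj, hq, hs⟩ := hz1 z hz
    refine mem_prod.2 ⟨hj, mem_PD.2 ⟨hq, fun i hi => (hY i).2 ⟨_, hz, ?_⟩⟩⟩
    rw [CC.snd_opair]
    exact hi
  · rw [hx]
    refine ev.inj _ _ (ev.sub σ) (ev.sub τ) ?_
    rw [ev.rb, ev.rb, h3]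

end AO.BP
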