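import Pool.Agent.H36.AO.PStmts
import Pool.Agent.H94.CC.Stmts
import Pool.Agent.H35.SW.VLE

/-!
Module CVC: countable sets of the extension are covered by countable sets of the model,
uniformly.
-/

set_option linter.unusedVariables false
set_option linter.unusedSectionVars false
set_option synthInstance.maxSize 100000

namespace AO.BP

open SW

/-- the second variable numbers, for every `x`, the `y` with `((x, y), n)` in it by members `n` of
the first injectively -/
def cvcQ (N : Type) [SetStr N] (v : Fin 2 → N) : Prop :=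
  ∀ z z' x y y' n, E n (v 0) → IsOP z x y → IsOP z' x y' → PairIn z n (v 1) →
    PairIn z' n (v 1) → y = y'

instance : UDf cvcQ := by unfold cvcQ; infer_instance

/-- CVC -/
theorem ao_cvc (h1 : CBTStmt) (h2 : ACFStmt) (hchs : CC.CHSStmt) : CVCStmt := by
  intro M _ _ _ F G hRI hccc hG _ X Y g hg hgc
  have hC := h1 M
  have hs : FSFacts F := semF F
  have he := embF hG
  have ht := traF hG
  -- numberings of the sets `g x`
  obtain ⟨φ, hφ⟩ := hchs (Ext F G) (emb F G X) (fun x f =>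
      (∀ y, E y (g x) → ∃ n, E n om ∧ E (opair y n) f) ∧
      ∀ y y' n, E y (g x) → E y' (g x) → E n om → E (opair y n) f → E (opair y' n) f → y = y')
    (by have _ := hg; infer_instance) (fun x hx => by
      obtain ⟨x0, hx0, rfl⟩ := he.trans _ _ hx
      exact hgc x0 hx0)
  -- one set
  obtain ⟨f, hf⟩ : ∃ f : Ext F G, ∀ x y n, E (opair (opair x y) n) f ↔
      (E x (emb F G X) ∧ E y (emb F G Y)) ∧ E n om ∧ E (opair y n) (app φ x) ∧ E y (g x) := by
    refine ⟨sep (prod (prod (emb F G X) (emb F G Y)) om) (fun z => ∃ x y n : Ext F G,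
      z = opair (opair x y) n ∧ E (opair y n) (app φ x) ∧ E y (g x)), fun x y n => ?_⟩
    rw [mem_sep' (by have _ := hg; infer_instance)]
    rw [mem_prod, mem_prod]
    constructor
    · rintro ⟨h3, x', y', n', h4, h5⟩
      rw [opair_inj, opair_inj] at h4
      obtain ⟨⟨rfl, rfl⟩, rfl⟩ := h4
      exact ⟨h3.1, h3.2, h5⟩
    · rintro ⟨h3, h4, h5⟩
      exact ⟨⟨h3, h4⟩, x, y, n, rfl, h5⟩
  obtain ⟨f, rfl⟩ := Quot.exists_rep f
  change ∀ x y n, E (opair (opair x y) n) (mk F G f) ↔ _ at hf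
  have h3 : cvcQ (Ext F G) (fun i => mk F G (![chk F om, f] i)) := by
    intro z z' x y y' n hn hz hz' hy hy'
    have hn' : E n (emb F G om) := hn
    rw [ht.om] at hn'
    rw [isOP_iff] at hz hz'
    subst hz hz'
    have hy1 := (hf _ _ _).1 (pairIn_iff.1 hy)
    have hy2 := (hf _ _ _).1 (pairIn_iff.1 hy')
    exact (hφ x hy1.1.1).2 y y' n hy1.2.2.2 hy2.2.2.2 hn' hy1.2.2.1 hy2.2.2.1
  obtain ⟨p, hpG, hp⟩ := (hs.truth cvcQ G hG ![chk F om, f]).1 h3
  have hpP : E p F.P := hG.sub p hpG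
  have hFP := FP_df F hs
  have _ : ∀ {n : ℕ} {t s u : (Fin n → M) → M} [DfT t] [DfT s] [DfT u],
      Df (fun v => FP F (t v) (chk F (s v)) (chk F (u v)) f) := fun {n t s u} _ _ _ =>
    Df.comp4 (R := fun q z c a => FP F q z c a) hFP inferInstance inferInstance inferInstance
      inferInstance
  -- conditions above `p` forcing `(z, n) ∈ f`
  obtain ⟨R, hRdef⟩ : ∃ R : M → M → M → Prop, R = fun z n q =>
    E q F.P ∧ Sub p q ∧ FP F q (chk F z) (chk F n) f := ⟨_, rfl⟩
  have hRd : Cl3 R := by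
    rw [hRdef]
    infer_instance
  have _ : ∀ {n : ℕ} {t s u : (Fin n → M) → M} [DfT t] [DfT s] [DfT u],
      Df (fun v => R (t v) (s v) (u v)) := fun {n t s u} _ _ _ =>
    Df.comp3 (R := fun a b c => R a b c) hRd inferInstance inferInstance inferInstance
  have hR : ∀ x y y' n q q' r, E n om → R (opair x y) n q → R (opair x y') n q' → E r F.P →
      Sub q r → Sub q' r → y = y' := by
    intro x y y' n q q' r hn h4 h5 hr hqr hqr'
    rw [hRdef] at h4 h5
    obtain ⟨hq, hpq, hqf⟩ := h4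
    obtain ⟨hq', hpq', hqf'⟩ := h5
    obtain ⟨G', hG', hrG'⟩ := hs.ex r hr
    have he' := embF hG'
    have h2 := hG'.up r q hrG' hq ((hRI _ _).2 hqr)
    have h3 := hG'.up r q' hrG' hq' ((hRI _ _).2 hqr')
    have h4 := hG'.up r p hrG' hpP ((hRI _ _).2 (hpq.trans hqr))
    have h5 : cvcQ (Ext F G') (fun i => mk F G' (![chk F om, f] i)) := hp G' hG' h4
    have _ := zfX hG'
    have ht' := traF hG'
    have h6 := h5 (emb F G' (opair x y)) (emb F G' (opair x y')) (emb F G' x) (emb F G' y)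
      (emb F G' y') (emb F G' n) ((he'.mem _ _).2 hn)
      (by rw [isOP_iff, ht'.opair]) (by rw [isOP_iff, ht'.opair])
      (hqf.pair hG' h2) (hqf'.pair hG' h3)
    exact (he'.inj _ _).1 h6
  obtain ⟨ch, hch⟩ := h2 M F.P
  -- the chosen condition
  obtain ⟨q, hqdef⟩ : ∃ q : M → M → M, q = fun n z => app ch (sep F.P (fun q : M => R z n q)) :=
    ⟨_, rfl⟩
  have hqd : Fn2 q := by rw [hqdef]; infer_instance
  have _ : ∀ {n : ℕ} {t s : (Fin n → M) → M} [DfT t] [DfT s],
      DfT (fun v => q (t v) (s v)) := fun {n t s} _ _ => hqd.comp2 inferInstance inferInstance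
  have hq : ∀ n z, (∃ r, R z n r) → R z n (q n z) := by
    rintro n z ⟨r, hr⟩
    have hr' := hr
    rw [hRdef] at hr'
    have h4 := hch (sep F.P (fun q : M => R z n q)) (fun z hz =>
      ((mem_sep' inferInstance).1 hz).1) ⟨r, (mem_sep' inferInstance).2 ⟨hr'.1, hr⟩⟩
    have h5 := ((mem_sep' (C := fun q : M => R z n q) inferInstance).1 h4).2
    rw [hqdef]
    exact h5
  -- the sets `A n x`
  obtain ⟨A, hAdef⟩ : ∃ A : M → M → M, A = fun n x => sep Y (fun y => ∃ r : M, R (opair x y) n r) :=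
    ⟨_, rfl⟩
  have hAd : Fn2 A := by rw [hAdef]; infer_instance
  have _ : ∀ {n : ℕ} {t s : (Fin n → M) → M} [DfT t] [DfT s],
      DfT (fun v => A (t v) (s v)) := fun {n t s} _ _ => hAd.comp2 inferInstance inferInstance
  have hA : ∀ n x y, E y (A n x) ↔ E y Y ∧ ∃ r, R (opair x y) n r := fun n x y => by
    rw [hAdef]
    exact mem_sep' inferInstance
  have hAc : ∀ x n, E n om → Cb (A n x) := by
    intro x n hn
    have h5 : Cb (img (A n x) (fun y => q n (opair x y))) := by
      refine hccc _ ⟨fun z hz => ?_, fun z z' hz hz' hne => ?_⟩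
      · rw [mem_img' inferInstance] at hz
        obtain ⟨y, hy, rfl⟩ := hz
        have h6 := hq n (opair x y) ((hA n x y).1 hy).2
        rw [hRdef] at h6
        exact h6.1
      · rw [mem_img' inferInstance] at hz hz'
        obtain ⟨y, hy, rfl⟩ := hz
        obtain ⟨y', hy', rfl⟩ := hz'
        rintro ⟨r, hr, h6, h7⟩
        have h8 := hR x y y' n _ _ r hn (hq n _ ((hA n x y).1 hy).2)
          (hq n _ ((hA n x y').1 hy').2) hr h6 h7
        rw [h8] at hne
        exact hne rfl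
    refine hC.inj (fun y => q n (opair x y)) inferInstance h5 (fun z hz => ?_)
      (fun z z' hz hz' h6 => ?_)
    · rw [mem_img' inferInstance]
      exact ⟨z, hz, rfl⟩
    · have h7 := hq n _ ((hA n x z).1 hz).2
      have h8 := hq n _ ((hA n x z').1 hz').2
      rw [← h6] at h8
      have h9 := h7
      rw [hRdef] at h9
      exact hR x z z' n _ _ (q n (opair x z)) hn h7 h8 h9.1 (Sub.refl _) (Sub.refl _)
  have hHd : Fn1 (fun x : M => sUn (img om (fun n => A n x))) := inferInstance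
  refine ⟨gr X (fun x => sUn (img om (fun n => A n x))), fun x hx => ?_,
    fun x y hx hy hyg => ?_⟩
  · rw [app_gr hHd hx]
    refine ⟨hC.iUn (fun n => A n x) inferInstance hC.om (hAc x), fun y hy => ?_⟩
    rw [mem_sUn] at hy
    obtain ⟨u, hu, hy⟩ := hy
    obtain ⟨n, hn, rfl⟩ := (mem_img' inferInstance).1 hu
    exact ((hA n x y).1 hy).1
  · rw [app_gr hHd hx, mem_sUn]
    obtain ⟨n, hn, hyn⟩ := (hφ _ ((he.mem _ _).2 hx)).1 _ hyg
    rw [← ht.om] at hn
    obtain ⟨n, hn, rfl⟩ := he.trans _ _ hn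
    refine ⟨A n x, (mem_img' inferInstance).2 ⟨n, (he.mem _ _).1 hn, rfl⟩, ?_⟩
    rw [hA]
    have h4 : E (opair (emb F G (opair x y)) (emb F G n)) (mk F G f) := by
      rw [ht.opair]
      refine (hf _ _ _).2 ⟨⟨(he.mem _ _).2 hx, (he.mem _ _).2 hy⟩, ?_, hyn, hyg⟩
      rw [← ht.om]
      exact hn
    obtain ⟨q', hq'G, hq'⟩ := FP.truth hG hs (pairIn_iff.2 h4)
    obtain ⟨r, hrG, hrq, hrp⟩ := hG.dir q' p hq'G hpG
    refine ⟨hy, r, ?_⟩
    rw [hRdef]
    exact ⟨hG.sub r hrG, (hRI _ _).1 hrp, hq'.mono (hG.sub q' hq'G) hrq⟩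

end AO.BP
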