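import Pool.Agent.H36.AO.PStmts
import Pool.Agent.H94.CC.Stmts

/-!
Module NAM: countable names.
-/

set_option linter.unusedVariables false
set_option linter.unusedSectionVars false
set_option synthInstance.maxSize 100000

namespace AO.BP

open SW

/-- NAM -/
theorem ao_nam (hmaxa : MAXAStmt) (hcbt : CBTStmt) (hchs : CC.CHSStmt) : NAMStmt := by
  intro M _ _ F G hRI hccc hG σ hσ
  have cb := hcbt M
  -- maximal antichains
  obtain ⟨f, hf⟩ := hchs M om (fun j a => Sub a (sep F.P (fun p => ∃ q, E (opair j q) σ ∧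
      Sub q p)) ∧ Anti F.P a ∧ ∀ d, E d (sep F.P (fun p => ∃ q, E (opair j q) σ ∧ Sub q p)) →
      ∃ q, E q a ∧ Cpt F.P q d) inferInstance (fun j hj => hmaxa M F.P _
        (fun z hz => ((mem_sep' inferInstance).1 hz).1))
  have hmem : ∀ z, E z (sUn (img om (fun j => img (app f j) (fun p => opair j p)))) ↔
      ∃ j p, E j om ∧ E p (app f j) ∧ z = opair j p := by
    intro z
    rw [mem_sUn]
    constructor
    · rintro ⟨y, hy, hz⟩
      obtain ⟨j, hj, rfl⟩ := (mem_img' inferInstance).1 hy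
      obtain ⟨p, hp, rfl⟩ := (mem_img' inferInstance).1 hz
      exact ⟨j, p, hj, hp, rfl⟩
    · rintro ⟨j, p, hj, hp, rfl⟩
      exact ⟨_, (mem_img' inferInstance).2 ⟨j, hj, rfl⟩,
        (mem_img' inferInstance).2 ⟨p, hp, rfl⟩⟩
  have hcZ : Cb (sUn (img om (fun j => img (app f j) (fun p => opair j p)))) :=
    cb.iUn _ inferInstance cb.om fun j hj => cb.img _ inferInstance (hccc _ (hf j hj).2.1)
  obtain ⟨Z, hZ⟩ : ∃ Z, Z = sUn (img om (fun j => img (app f j) (fun p => opair j p))) :=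
    ⟨_, rfl⟩
  rw [← hZ] at hmem hcZ
  obtain ⟨h, hh⟩ := hchs M Z (fun z q => E (opair (CC.fst z) q) σ ∧ Sub q (CC.snd z))
    inferInstance (fun z hz => by
      obtain ⟨j, p, hj, hp, rfl⟩ := (hmem z).1 hz
      obtain ⟨-, q, h1, h2⟩ := (mem_sep' inferInstance).1 ((hf j hj).1 p hp)
      exact ⟨q, by rw [CC.fst_opair]; exact h1, by rw [CC.snd_opair]; exact h2⟩)
  refine ⟨img Z (fun z => opair (CC.fst z) (app h z)), ?_, cb.img _ inferInstance hcZ, ?_⟩
  · intro z hz
    obtain ⟨y, hy, rfl⟩ := (mem_img' inferInstance).1 hz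
    exact (hh y hy).1
  · funext j
    unfold vl
    congr 1
    rw [eq_iff_iff]
    constructor
    · rintro ⟨q, hq, hjq⟩
      obtain ⟨y, hy, e⟩ := (mem_img' inferInstance).1 hjq
      refine ⟨q, hq, ?_⟩
      rw [e]
      exact (hh y hy).1
    · rintro ⟨q, hq, hjq⟩
      have hj := (mem_prod.1 (hσ _ hjq)).1
      obtain ⟨r, hr, hqr, p, hp, hpr⟩ := (genF hG).meetB (fun r : M => ∃ p, E p (app f (nu j)) ∧
        Sub p r) inferInstance q hq (by
        intro p hp hpq
        rw [hRI] at hpq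
        obtain ⟨p', hp', r, hr, h1, h2⟩ := (hf _ hj).2.2 p
          ((mem_sep' inferInstance).2 ⟨hp, q, hjq, hpq⟩)
        exact ⟨r, hr, (hRI _ _).2 h2, p', hp', h1⟩)
      have hpP : E p F.P := ((mem_sep' inferInstance).1 ((hf _ hj).1 p hp)).1
      have hpG : G p := hG.up r p hr hpP ((hRI _ _).2 hpr)
      have hz : E (opair (nu j) p) Z := (hmem _).2 ⟨nu j, p, hj, hp, rfl⟩
      have h3 := hh _ hz
      rw [CC.fst_opair, CC.snd_opair] at h3
      have h4 : E (app h (opair (nu j) p)) F.P := (mem_prod.1 (hσ _ h3.1)).2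
      refine ⟨app h (opair (nu j) p), hG.up p _ hpG h4 ((hRI _ _).2 h3.2),
        (mem_img' inferInstance).2 ⟨_, hz, ?_⟩⟩
      rw [CC.fst_opair]

end AO.BP
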