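import Pool.Agent.H94.AO.QStmts

/-!
Block Q: the final step, from the module statements.
-/

set_option linter.unusedVariables false
set_option linter.unusedSectionVars false
set_option synthInstance.maxSize 100000

namespace AO

open SW

/-- block Q -/
theorem qasm (hlex : LEXStmt) (hqfx : QFXStmt) (hemx : EMXStmt) (hprx : PRXStmt)
    (halx : ALXStmt) (htmx : TMXStmt) : QMAINStmt := by
  intro M _ _ _ hch
  obtain ⟨w, l, hR⟩ := hlex M
  obtain ⟨F, hF⟩ := hqfx M w l hR
  obtain ⟨G, hG, -⟩ := (semF F).ex F.one F.one_mem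
  refine ⟨F, G, hG, ?_⟩
  intro inst
  have hx := hemx M F G hG
  have h1 := hprx M w l F G hR hF hG
  obtain ⟨v, hv, hv'⟩ := hch
  refine ⟨⟨emb F G v, halx M w l F G hR hF hG 1 v hv, ?_⟩, emb F G l, TG F G,
    htmx M w l F G hR hF hG⟩
  rw [h1.1]
  exact hx.im v _ hv'

end AO
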