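import Pool.Agent.H94.AO.QStmts

/-!
Module TGX: the generic template.
-/

set_option linter.unusedVariables false
set_option linter.unusedSectionVars false
set_option synthInstance.maxSize 100000

namespace AO

open SW

/-- TGX -/
theorem tgx (hemx : EMXStmt) (hrgb : RGBStmt) : TGXStmt := by
  intro M _ _ _ w l F G hR hF hG inst
  have ef := embF hG
  have tf := traF hG
  have hl := hR.ord
  have rg := hrgb M w l hR
  have hx := hemx M F G hG
  have hP : ∀ p, G p → E p (QP w l) := fun p hp => by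
    have := hG.sub p hp
    rwa [hF.P] at this
  have hpr : ∀ p, G p → p = opair (CC.fst p) (CC.snd p) ∧ E (CC.fst p) l ∧
      TC w (CC.fst p) (CC.snd p) := fun p hp => (QP_iff hl).1 (hP p hp)
  have hmem : ∀ x : Ext F G, E x (TG F G) ↔ ∃ p z, G p ∧ E z (CC.snd p) ∧ x = emb F G z := by
    intro x
    unfold TG
    rw [mem_sUn]
    constructor
    · rintro ⟨y, hy, hx'⟩
      obtain ⟨p', hp', rfl⟩ := (mem_img' inferInstance).1 hy
      obtain ⟨p, hp, rfl⟩ := (ef.G_mem _).1 hp'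
      rw [← hx.snd] at hx'
      obtain ⟨z, hz, rfl⟩ := ef.trans _ _ hx'
      exact ⟨p, z, hp, hz, rfl⟩
    · rintro ⟨p, z, hp, hz, rfl⟩
      exact ⟨emb F G (CC.snd p), (mem_img' inferInstance).2 ⟨emb F G p,
        (ef.G_mem _).2 ⟨_, hp, rfl⟩, hx.snd p⟩, (ef.mem _ _).2 hz⟩
  have hnb : ∀ p d, G p → E d (CC.fst p) →
      nb (TG F G) (emb F G d) = emb F G (nb (CC.snd p) d) := by
    intro p d hp hd
    refine ext fun n => ?_
    rw [mem_nb, hmem]
    constructor
    · rintro ⟨hn, q, z, hq, hz, e⟩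
      obtain ⟨n0, hn0, rfl⟩ := ef.trans _ _ hn
      rw [← tf.opair, ef.inj] at e
      subst e
      rw [ef.mem, mem_nb]
      refine ⟨hn0, ?_⟩
      obtain ⟨r, hr, hrp, hrq⟩ := hG.dir p q hp hq
      rw [hF.le] at hrp hrq
      have h1 := QL_snd hrq _ hz
      rw [hrp.2, opair_mem_res]
      exact ⟨h1, hd⟩
    · intro hn
      obtain ⟨n0, hn0, rfl⟩ := ef.trans _ _ hn
      rw [mem_nb] at hn0
      exact ⟨(ef.mem _ _).2 hn0.1, p, opair d n0, hp, hn0.2, by rw [tf.opair]⟩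
  refine ⟨hmem, hnb, ?_, fun p hp => (hpr p hp).2, ?_⟩
  · intro b hb
    obtain ⟨p, hp, hbp⟩ := (genF hG).meetC (fun p : M => E b (CC.fst p)) inferInstance (by
      intro p hp
      rw [hF.P] at hp
      obtain ⟨h1, h2, h3⟩ := (QP_iff hl).1 hp
      obtain ⟨h4, h5⟩ := QP_blank hl (h1 ▸ hp) (b' := bun (CC.fst p) (suc b))
        (fun z hz => mem_bun.2 (Or.inl hz)) (rg.bun _ _ h2 (hR.suc b hb))
      refine ⟨opair (bun (CC.fst p) (suc b)) (CC.snd p), ?_, ?_, ?_⟩
      · rw [hF.P]; exact h4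
      · rw [hF.le]
        rw [← h1] at h5
        exact h5
      · rw [CC.fst_opair, mem_bun, mem_suc]
        exact Or.inr (Or.inr rfl))
    exact ⟨p, hp, (hl.mem (hpr p hp).2.1).1 b hbp, hbp⟩
  · intro p hp
    obtain ⟨f, hf1, hf2⟩ := hx.fre _ _ (hpr p hp).2.2.2.2.2.2
    have key : ∀ d, E d (emb F G (CC.fst p)) →
        nb (TG F G) d = nb (emb F G (CC.snd p)) d := by
      intro d hd
      obtain ⟨d0, hd0, rfl⟩ := ef.trans _ _ hd
      rw [hnb p d0 hp hd0, hx.nb]
    refine ⟨f, fun d hd hn => ?_, fun d d' n hd hd' hne hn hn' => ?_⟩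
    · rw [key d hd] at hn
      exact hf1 d hd hn
    · rw [key d hd] at hn
      rw [key d' hd'] at hn'
      exact hf2 d d' n hd hd' hne hn hn'

end AO
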