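import Pool.Agent.H94.AO.QStmts

/-!
Module TMX: the generic template is a template.
-/

set_option linter.unusedVariables false
set_option linter.unusedSectionVars false
set_option synthInstance.maxSize 100000

namespace AO

open SW

/-- TMX -/
theorem tmx (hrgx : RGXStmt) (hprx : PRXStmt) (htgx : TGXStmt) (hunx : UNXStmt) (hemx : EMXStmt)
    (hrgb : RGBStmt) (half : ALFStmt) (hcbt : CBTStmt) : TMXStmt := by
  intro M _ _ _ w l F G hR hF hG inst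
  have ef := embF hG
  have tf := traF hG
  have hl := hR.ord
  have hx := hemx M F G hG
  have tg := htgx M w l F G hR hF hG
  have hRX := hrgx M w l F G hR hF hG
  have rgx := hrgb (Ext F G) _ _ hRX
  have cbx := hcbt (Ext F G)
  obtain ⟨hpow, hcb, hW⟩ := hprx M w l F G hR hF hG
  refine ⟨tf.ord l hl, ?_, ?_, ?_, ?_, fun k X hX hX' => rgx.sz k X hX' hX, ?_⟩
  · intro z hz
    obtain ⟨p, z0, hp, hz0, rfl⟩ := (tg.mem z).1 hz
    obtain ⟨d, n, rfl, h1, h2⟩ := (tg.tc p hp).2.1 z0 hz0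
    exact ⟨emb F G d, emb F G n, tf.opair d n, (ef.mem _ _).2 h1,
      (ef.mem _ _).2 (hl.trans (tg.tc p hp).1 h2)⟩
  · intro d g hd hg
    obtain ⟨d0, hd0, rfl⟩ := ef.trans _ _ hd
    obtain ⟨g0, hg0, rfl⟩ := ef.trans _ _ hg
    obtain ⟨p, hp, -, hdp⟩ := tg.ht d0 hd0
    rw [tg.nb p d0 hp hdp, ← hx.inter]
    exact hx.cb _ ((tg.tc p hp).2.2.1 d0 g0 hdp hg0)
  · intro d hd
    obtain ⟨d0, hd0, rfl⟩ := ef.trans _ _ hd
    obtain ⟨p, hp, -, hdp⟩ := tg.ht d0 hd0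
    rw [tg.nb p d0 hp hdp]
    exact ⟨emb F G w, ((half (Ext F G)).w1 _).2 hW, hx.im _ _ ((tg.tc p hp).2.2.2.2.1 d0 hdp)⟩
  · intro b hb
    obtain ⟨b0, hb0, rfl⟩ := ef.trans _ _ hb
    obtain ⟨p, hp, hbp, -⟩ := tg.ht b0 hb0
    have hs : Sub (emb F G b0) (emb F G (CC.fst p)) := (tf.sub _ _).2 hbp
    obtain ⟨f, hf1, hf2⟩ := tg.fre p hp
    exact ⟨f, fun d hd => hf1 d (hs d hd), fun d d' n hd hd' => hf2 d d' n (hs d hd) (hs d' hd')⟩
  · intro g hg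
    obtain ⟨d, hd, hd1, hd2⟩ := hunx M w l F G hR hF hG
      (sep (prod (emb F G l) (emb F G l)) (fun z =>
        Sub (inter (app g (CC.fst z)) (emb F G l)) (CC.snd z))) (by
      intro n hn
      obtain ⟨c, hc, hc'⟩ := rgx.cb (inter (app g n) (emb F G l))
        (fun z hz => (mem_inter.1 hz).2)
        (cbx.sub (hg n hn) fun z hz => (mem_inter.1 hz).1)
      refine ⟨c, hc, (mem_sep' inferInstance).2 ⟨mem_prod.2 ⟨hn, hc⟩, ?_⟩⟩
      rw [CC.fst_opair, CC.snd_opair]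
      exact hc')
    refine ⟨d, hd, hd1, fun n hn hdn => ?_⟩
    obtain ⟨m, hm, hnm⟩ := hd2 n (mem_nb.1 hn).1
    obtain ⟨-, h1⟩ := (mem_sep' inferInstance).1 hnm
    rw [CC.fst_opair, CC.snd_opair] at h1
    exact not_mem_cycle hm (h1 d (mem_inter.2 ⟨hdn, hd⟩))

end AO
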