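import Pool.Agent.H94.AO.QStmts
import Pool.Agent.H94.CC.CHAIN

/-!
Module WSQ: a sequence of conditions of length `w`.
-/

set_option linter.unusedVariables false
set_option linter.unusedSectionVars false
set_option synthInstance.maxSize 100000

namespace AO

open SW

/-- WSQ -/
theorem wsq (hcha : CHAStmt) (hstp : STPStmt) (hrgb : RGBStmt) (hcbt : CBTStmt) (hwf : WFStmt)
    (hchs : CC.CHSStmt) : WSQStmt := by
  intro M _ _ w l p D hR hD hp hmono hdense
  have hW := hR.w1
  have wf := hwf M w hW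
  have cb := hcbt M
  have rg := hrgb M w l hR
  have hl := hR.ord
  have hNx : Df (fun v : Fin 4 → M => ∀ n, E n (CC.fst (v 1)) → ∃ m, E m (CC.fst (v 2)) ∧
      D (v 2) n m) := by
    have _ : ∀ {k : ℕ} {t s u : (Fin k → M) → M} [DfT t] [DfT s] [DfT u],
        Df (fun v => D (t v) (s v) (u v)) := fun {k t s u} ht hs hu =>
      Df.comp3 (R := fun a b c => D a b c) hD ht hs hu
    infer_instance
  obtain ⟨pp, g, y, q, hq, hqp, hqe, hall⟩ := hcha M w l w p (sing emp)
    (fun j p p' y => ∀ n, E n (CC.fst p) → ∃ m, E m (CC.fst p') ∧ D p' n m) hR hNx hR.wl hp (by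
      intro j r hj hr hrp
      obtain ⟨p', h1, h2, h3⟩ := hstp M w l r D hR hD hr hmono
        (fun s n hs hsr hn => hdense s n hs (QL_trans hsr hrp) hn)
      exact ⟨p', emp, h1, h2, by simp, h3⟩)
  have hg1 : Fn1 (fun i : M => app g i) := inferInstance
  obtain ⟨b, hb⟩ : ∃ b : M → M, b = fun j => CC.fst (app pp j) := ⟨_, rfl⟩
  have hbd : Fn1 b := by rw [hb]; infer_instance
  have hbj : ∀ j, b j = CC.fst (app pp j) := fun j => by rw [hb]
  have hbl : ∀ j, E j w → E (b j) l := fun j hj => by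
    rw [hbj]
    exact ((QP_iff hl).1 (hall j hj).2.1).2.1
  have hbo : ∀ j, E j w → Ord (b j) := fun j hj => hl.mem (hbl j hj)
  have hqo : Ord (CC.fst q) := hl.mem ((QP_iff hl).1 hq).2.1
  -- steps
  have hb1 : ∀ j, E j w → Sub (b j) (CC.fst (app g j)) := fun j hj => by
    rw [hbj]
    exact (hall j hj).2.2.2.2.1.1
  have hbs : ∀ j, E j w → b j = suc (CC.fst (CC.UP p j (fun i => app g i))) := fun j hj => by
    rw [hbj, (hall j hj).1, fst_BL]
  have hgo : ∀ j, E j w → Ord (CC.fst (app g j)) := fun j hj =>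
    hl.mem ((QP_iff hl).1 (hall j hj).2.2.2.1).2.1
  have hub : ∀ j, E j w → Ord (CC.fst (CC.UP p j (fun i => app g i))) := fun j hj => by
    have h1 := hbo j hj
    rw [hbs j hj] at h1
    exact h1.mem (mem_suc.2 (Or.inr rfl))
  have hsub2 : ∀ i j, E j w → E i j → E (CC.fst (app g i)) (b j) := by
    intro i j hj hij
    have hi : E i w := hW.1.trans hj hij
    rw [hbs j hj, mem_suc]
    refine ((hgo i hi).sub_iff (hub j hj)).1 fun z hz => ?_
    exact (CC.mem_fst_UP hg1).2 (Or.inr ⟨i, hij, hz⟩)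
  have hlt : ∀ i j, E j w → E i j → E (b i) (b j) := by
    intro i j hj hij
    have hi : E i w := hW.1.trans hj hij
    have h1 := hsub2 i j hj hij
    rcases ((hbo i hi).sub_iff (hgo i hi)).1 (hb1 i hi) with h | h
    · exact (hbo j hj).trans h1 h
    · rw [h]; exact h1
  have hbq : ∀ j, E j w → E (b j) (CC.fst q) := by
    intro j hj
    have h1 := hlt j (suc j) (wf.suc hj) (mem_suc.2 (Or.inr rfl))
    have h2 := hb1 (suc j) (wf.suc hj)
    exact (hall (suc j) (wf.suc hj)).2.2.2.2.2.2.2.2.1 _ (h2 _ h1)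
  have hcov : ∀ n, E n (CC.fst q) → ∃ j, E j w ∧ E n (b j) := by
    intro n hn
    rw [hqe] at hn
    rcases (CC.mem_fst_UP hg1).1 hn with h | ⟨i, hi, h⟩
    · have h0 : E (emp : M) w := wf.om _ (by
        have := (inferInstance : ZF M)
        exact emp_mem_ord Ord_om (fun h => by
          have h1 := suc_mem_om (M := M) (n := emp) (mem_om.2 fun z hz => hz.1)
          rw [h] at h1
          exact not_mem_emp _ h1))
      refine ⟨emp, h0, ?_⟩
      rw [hbs emp h0, mem_suc]
      left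
      exact (CC.mem_fst_UP hg1).2 (Or.inl h)
    · refine ⟨suc i, wf.suc hi, ?_⟩
      exact (hbo _ (wf.suc hi)).trans (hsub2 i (suc i) (wf.suc hi) (mem_suc.2 (Or.inr rfl))) h
  have hinj : ∀ i j, E i w → E j w → b i = b j → i = j := by
    intro i j hi hj hij
    rcases (hW.1.mem hi).tri (hW.1.mem hj) with h | h | h
    · exact absurd (hlt i j hj h) (by rw [hij]; exact not_mem_self _)
    · exact h
    · exact absurd (hlt j i hi h) (by rw [hij]; exact not_mem_self _)
  have hle : ∀ i j, E i w → E j w → E (b i) (b j) → E i j := by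
    intro i j hi hj hij
    rcases (hW.1.mem hi).tri (hW.1.mem hj) with h | h | h
    · exact h
    · rw [h] at hij
      exact absurd hij (not_mem_self _)
    · exact (not_mem_cycle hij (hlt j i hi h)).elim
  refine ⟨q, img w b, hq, hqp, ⟨?_, ?_, ?_, ?_⟩, ?_, ?_⟩
  · -- countable subsets are bounded
    intro c hc hcc
    obtain ⟨f, hf⟩ := hchs M c (fun n j => E j w ∧ E n (b j)) (by
      have _ := hbd
      infer_instance) (fun n hn => hcov n (hc n hn))
    obtain ⟨j, hj, hj'⟩ := wf.bdd (s := img c (fun n => app f n)) (by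
      intro z hz
      obtain ⟨n, hn, rfl⟩ := (mem_img' inferInstance).1 hz
      exact (hf n hn).1) (cb.img (fun n => app f n) inferInstance hcc)
    refine ⟨b j, hbq j hj, fun n hn => ?_⟩
    have h1 := hf n hn
    have h2 := hj' (app f n) ((mem_img' inferInstance).2 ⟨n, hn, rfl⟩)
    exact (hbo j hj).trans (hlt _ j hj h2) h1.2
  · intro z hz
    obtain ⟨j, hj, rfl⟩ := (mem_img' hbd).1 hz
    exact hbq j hj
  · intro z hz
    obtain ⟨j, hj, hzj⟩ := hcov z hz
    refine cb.sub (cb.img b hbd (hW.2.2 j hj)) fun x hx => ?_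
    rw [mem_inter] at hx
    obtain ⟨i, hi, rfl⟩ := (mem_img' hbd).1 hx.2
    refine (mem_img' hbd).2 ⟨i, hle i j hi hj ?_, rfl⟩
    exact (hbo j hj).trans hzj hx.1
  · refine ⟨gr w b, fun z hz => ?_⟩
    obtain ⟨j, hj, rfl⟩ := (mem_img' hbd).1 hz
    exact ⟨j, hj, (app_gr hbd hj).symm⟩
  · intro hcb
    refine hW.2.1 (cb.inj b hbd hcb (fun j hj => (mem_img' hbd).2 ⟨j, hj, rfl⟩) ?_)
    exact fun i j hi hj h => hinj i j hi hj h
  · intro n hn
    obtain ⟨j, hj, hnj⟩ := hcov n hn
    have h := hall j hj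
    rw [hbj] at hnj
    obtain ⟨m, hm, hD'⟩ := h.2.2.2.2.2.2.1 n hnj
    have hqg := h.2.2.2.2.2.2.2.2
    exact ⟨m, hqg.1 m hm, hmono _ _ _ _ hD' hq hqg⟩

end AO
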