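import Pool.Agent.H93.MA.CBT
import Pool.Agent.H2.MA.SEQ
import Pool.Agent.H8.MA.BIG
import Pool.Agent.H35.MA.ACF
import Pool.Agent.H2.CT.BIT
import Pool.Agent.H31.CC.CHS
import Pool.Agent.H83.AO.ALF
import Pool.Agent.H17.AO.ALX
import Pool.Agent.H17.AO.LEX
import Pool.Agent.H20.AO.LRG
import Pool.Agent.H31.AO.PRX
import Pool.Agent.H33.AO.ADD
import Pool.Agent.H33.AO.DIQ
import Pool.Agent.H51.AO.CHQ
import Pool.Agent.H51.AO.EMX
import Pool.Agent.H64.AO.CHA
import Pool.Agent.H64.AO.UNX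
import Pool.Agent.H65.AO.HNX
import Pool.Agent.H65.AO.STP
import Pool.Agent.H93.AO.QFN
import Pool.Agent.H93.AO.RGB
import Pool.Agent.H94.AO.TGX
import Pool.Agent.H94.AO.TMX
import Pool.Agent.H94.AO.WSQ
import Pool.Agent.H94.AO.QAsm

/-!
All modules of block Q together.
-/

set_option linter.unusedVariables false
set_option synthInstance.maxSize 100000

namespace AO

open SW

theorem q_acf : ACFStmt := ma_acf
theorem q_cbt : CBTStmt := ma_cbt q_acf
theorem q_wf : WFStmt := ma_wf q_cbt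
theorem q_chs : CC.CHSStmt := CC.cc_chs q_acf
theorem q_bit : BITStmt := ct_bit (ma_big q_acf)
theorem q_alf : ALFStmt := alf
theorem q_lex : LEXStmt := lex hnx (lrg q_bit q_acf q_chs) q_alf
theorem q_rgb : RGBStmt := rgb q_cbt
theorem q_chq : CHQStmt := chq q_chs q_rgb
theorem q_cha : CHAStmt := cha q_chq q_acf
theorem q_diq : DIQStmt := diq q_cha
theorem q_stp : STPStmt := stp q_diq q_rgb
theorem q_wsq : WSQStmt := wsq q_cha q_stp q_rgb q_cbt q_wf q_chs
theorem q_emx : EMXStmt := emx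
theorem q_qfn : QFNStmt := qfn q_diq
theorem q_prx : PRXStmt := prx q_qfn q_cbt
theorem q_alx : ALXStmt := alx q_qfn q_emx
theorem q_rgx : RGXStmt := rgx q_qfn q_prx q_alx q_alf
theorem q_tgx : TGXStmt := tgx q_emx q_rgb
theorem q_unx : UNXStmt := unx q_wsq (add q_chs) q_tgx q_prx q_rgb
theorem q_tmx : TMXStmt := tmx q_rgx q_prx q_tgx q_unx q_emx q_rgb q_alf q_cbt

/-- block Q: a model of the continuum hypothesis with a template -/
theorem qmain : QMAINStmt := qasm q_lex qfx q_emx q_prx q_alx q_tmx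

end AO
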