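import Pool.Agent.H98.AO.Iface
import Pool.Agent.H94.CC.Stmts

/-!
Definitions and simple facts for block Q: conditions of the first notion of forcing, blank
levels, the generic template.
-/

set_option linter.unusedVariables false
set_option linter.unusedSectionVars false
set_option synthInstance.maxSize 100000

namespace AO

open SW

section
variable {M : Type} [SetStr M] [ZF M]

/-! ### templates -/

theorem TC_sub {w b t d n : M} (h : TC w b t) (hd : E (opair d n) t) : E n d ∧ E d b := by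
  obtain ⟨d', n', e, h1, h2⟩ := h.1 _ hd
  obtain ⟨rfl, rfl⟩ := opair_inj.1 e
  exact ⟨h1, h2⟩

theorem TC_res {w b t : M} (h : TC w b t) : res t b = t := by
  refine ext fun z => ?_
  rw [mem_res]
  refine ⟨fun h => h.1, fun hz => ⟨hz, ?_⟩⟩
  obtain ⟨d, n, rfl, h1, h2⟩ := h.1 z hz
  exact ⟨d, n, h2, rfl⟩

theorem nb_sub (T d : M) : Sub (nb T d) d := fun n hn => (mem_nb.1 hn).1

/-- neighbourhoods in restrictions -/
theorem nb_res {t b d : M} (hd : E d b) : nb (res t b) d = nb t d := by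
  refine ext fun n => ?_
  rw [mem_nb, mem_nb, opair_mem_res]
  exact ⟨fun h => ⟨h.1, h.2.1⟩, fun h => ⟨h.1, h.2, hd⟩⟩

theorem res_res {v c d : M} (h : Sub d c) : res (res v c) d = res v d := by
  refine ext fun z => ?_
  rw [mem_res, mem_res, mem_res]
  constructor
  · rintro ⟨⟨h1, -⟩, h2⟩
    exact ⟨h1, h2⟩
  · rintro ⟨h1, x, y, hx, rfl⟩
    exact ⟨⟨h1, x, y, h x hx, rfl⟩, x, y, hx, rfl⟩

/-- a template on a larger set, with no new neighbours -/
theorem TC_blank {w b b' t : M} (h : TC w b t) (hb : Sub b b') : TC w b' t := by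
  have hn : ∀ d, ¬ E d b → ∀ n, ¬ E n (nb t d) := fun d hd n hn =>
    hd (TC_sub h (mem_nb.1 hn).2).2
  refine ⟨?_, ?_, ?_, ?_, ?_⟩
  · intro z hz
    obtain ⟨d, n, rfl, h1, h2⟩ := h.1 z hz
    exact ⟨d, n, rfl, h1, hb d h2⟩
  · intro d g hd hg
    by_cases hdb : E d b
    · exact h.2.1 d g hdb hg
    · exact ⟨emp, fun y hy => absurd (mem_inter.1 hy).2 (hn d hdb y),
        fun y y' n hy => absurd (mem_inter.1 hy).2 (hn d hdb y)⟩
  · intro d hd ⟨n, hn'⟩
    exact h.2.2.1 d (TC_sub h (mem_nb.1 hn').2).2 ⟨n, hn'⟩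
  · intro d hd
    by_cases hdb : E d b
    · exact h.2.2.2.1 d hdb
    · exact ⟨emp, fun y hy => absurd hy (hn d hdb y)⟩
  · obtain ⟨f, h1, h2⟩ := h.2.2.2.2
    refine ⟨f, fun d hd ⟨n, hn'⟩ => h1 d (TC_sub h (mem_nb.1 hn').2).2 ⟨n, hn'⟩,
      fun d d' n hd hd' hne hn1 hn2 => h2 d d' n (TC_sub h (mem_nb.1 hn1).2).2
        (TC_sub h (mem_nb.1 hn2).2).2 hne hn1 hn2⟩

theorem TC_emp (w : M) : TC w emp emp :=
  ⟨fun z hz => absurd hz (not_mem_emp z), fun d g hd => absurd hd (not_mem_emp d),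
    fun d hd => absurd hd (not_mem_emp d), fun d hd => absurd hd (not_mem_emp d),
    emp, fun d hd => absurd hd (not_mem_emp d), fun d d' n hd => absurd hd (not_mem_emp d)⟩

/-! ### conditions -/

theorem mem_QP {w l p : M} (hl : Ord l) :
    E p (QP w l) ↔ ∃ b t, p = opair b t ∧ E b l ∧ TC w b t := by
  unfold QP
  rw [mem_sep]
  constructor
  · rintro ⟨h1, b, t, rfl, h2⟩
    rw [mem_prod] at h1
    exact ⟨b, t, rfl, h1.1, h2⟩
  · rintro ⟨b, t, rfl, h1, h2⟩
    refine ⟨?_, b, t, rfl, h2⟩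
    rw [mem_prod, mem_pow]
    refine ⟨h1, fun z hz => ?_⟩
    obtain ⟨d, n, rfl, h3, h4⟩ := h2.1 z hz
    have hd : E d l := hl.trans h1 h4
    exact mem_prod.2 ⟨hd, hl.trans hd h3⟩

theorem mem_QP' {w l b t : M} (hl : Ord l) : E (opair b t) (QP w l) ↔ E b l ∧ TC w b t := by
  rw [mem_QP hl]
  constructor
  · rintro ⟨b', t', e, h⟩
    obtain ⟨rfl, rfl⟩ := opair_inj.1 e
    exact h
  · exact fun h => ⟨b, t, rfl, h⟩

theorem QP_iff {w l p : M} (hl : Ord l) : E p (QP w l) ↔
    p = opair (CC.fst p) (CC.snd p) ∧ E (CC.fst p) l ∧ TC w (CC.fst p) (CC.snd p) := by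
  constructor
  · intro h
    obtain ⟨b, t, rfl, h1, h2⟩ := (mem_QP hl).1 h
    rw [CC.fst_opair, CC.snd_opair]
    exact ⟨rfl, h1, h2⟩
  · rintro ⟨h1, h2, h3⟩
    rw [h1]
    exact (mem_QP' hl).2 ⟨h2, h3⟩

@[simp] theorem QL_opair {b t c s : M} :
    QL (opair b t) (opair c s) ↔ Sub c b ∧ s = res t c := by
  unfold QL
  simp

theorem QL_refl {w l p : M} (hl : Ord l) (h : E p (QP w l)) : QL p p :=
  ⟨Sub.refl _, (TC_res ((QP_iff hl).1 h).2.2).symm⟩

theorem QL_trans {p q r : M} (h1 : QL p q) (h2 : QL q r) : QL p r :=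
  ⟨h2.1.trans h1.1, by rw [h2.2, h1.2, res_res h2.1]⟩

theorem QL_one (p : M) : QL p (opair emp emp) := by
  refine ⟨by rw [CC.fst_opair]; exact fun z hz => absurd hz (not_mem_emp z), ?_⟩
  rw [CC.fst_opair, CC.snd_opair]
  refine ext fun z => ?_
  rw [mem_res]
  constructor
  · intro hz
    exact absurd hz (not_mem_emp z)
  · rintro ⟨-, x, y, hx, -⟩
    exact absurd hx (not_mem_emp x)

/-- extensions have the same neighbourhoods -/
theorem QL_nb {p q d : M} (h : QL p q) (hd : E d (CC.fst q)) :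
    nb (CC.snd q) d = nb (CC.snd p) d := by rw [h.2, nb_res hd]

theorem QL_snd {p q : M} (h : QL p q) : Sub (CC.snd q) (CC.snd p) := by
  intro z hz
  rw [h.2] at hz
  exact (mem_res.1 hz).1

/-- adding empty levels -/
theorem QP_blank {w l b b' t : M} (hl : Ord l) (hp : E (opair b t) (QP w l)) (hb : Sub b b')
    (hb' : E b' l) : E (opair b' t) (QP w l) ∧ QL (opair b' t) (opair b t) := by
  rw [mem_QP' hl] at hp ⊢
  refine ⟨⟨hb', TC_blank hp.2 hb⟩, ?_⟩
  rw [QL_opair]
  exact ⟨hb, (TC_res hp.2).symm⟩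

/-- the pair `p` with one empty level added -/
noncomputable def BL (p : M) : M := opair (SW.suc (CC.fst p)) (CC.snd p)

theorem BL_df : Fn1 (fun p : M => BL p) := by unfold BL; infer_instance

instance {n : ℕ} {t : (Fin n → M) → M} [ht : DfT t] : DfT (fun v => BL (t v)) :=
  BL_df.comp1 ht

@[simp] theorem fst_BL (p : M) : CC.fst (BL p) = SW.suc (CC.fst p) := by unfold BL; simp

@[simp] theorem snd_BL (p : M) : CC.snd (BL p) = CC.snd p := by unfold BL; simp

theorem BL_mem {w l p : M} (hR : Rg w l) (hp : E p (QP w l)) :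
    E (BL p) (QP w l) ∧ QL (BL p) p := by
  obtain ⟨h1, h2, h3⟩ := (QP_iff hR.ord).1 hp
  have h := QP_blank hR.ord (h1 ▸ hp) (b' := SW.suc (CC.fst p))
    (fun z hz => mem_suc.2 (Or.inl hz)) (hR.suc _ h2)
  rw [← h1] at h
  exact h

/-- `A` can be the neighbourhood of `b` -/
structure Top (w b A : M) : Prop where
  cof : ∀ c, Sub c b → Cb c → ∃ g, E g b ∧ Sub c g
  sub : Sub A b
  seg : ∀ g, E g b → Cb (inter g A)
  im : Img w A

end

/-! ### the generic template -/

section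
variable {M : Type} [SetStr M] [ZF M]

/-- the union of the second components of the conditions in the generic filter -/
noncomputable def TG (F : FPoset M) (G : M → Prop) [ZF (Ext F G)] : Ext F G :=
  sUn (img (mk F G (Gnm F)) (fun p => CC.snd p))

end

end AO
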