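import Pool.Agent.H94.AO.QDefs

/-!
Statements of the modules of block Q of project AO: a model with CH and a template.
-/

set_option linter.unusedVariables false
set_option linter.unusedSectionVars false
set_option synthInstance.maxSize 100000

namespace AO

open SW

/-! ## Part S: set theory in a model of ZFC -/

/-- HNX: an ordinal closed under larger cardinalities -/
def HNXStmt : Prop := ∀ (M : Type) [SetStr M] [ZFC M], ∃ z : M, Ord z ∧ E om z ∧
  ∀ v, E v z → ∃ u, E u z ∧ ¬ Img v u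

/-- LRG: regular cardinals exist above every ordinal -/
def LRGStmt : Prop := ∀ (M : Type) [SetStr M] [ZFC M] (z : M), Ord z → E om z → ∃ l, Ord l ∧
  E z l ∧ (∀ a, E a l → E (suc a) l) ∧
  ∀ b f, E b l → (∀ x, E x b → E (app f x) l) → ∃ c, E c l ∧ ∀ x, E x b → E (app f x) c

/-- LEX -/
def LEXStmt : Prop := ∀ (M : Type) [SetStr M] [ZFC M], ∃ w l : M, Rg w l

/-- facts about `l` -/
structure RgF {M : Type} [SetStr M] [ZF M] (w l : M) : Prop where
  mem : ∀ a, E a l → Ord a
  tr : ∀ a b, E a b → E b l → E a l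
  emp : E (SW.emp : M) l
  om : E (SW.om : M) l
  bun : ∀ a b, E a l → E b l → E (SW.bun a b) l
  /-- functions from members of `l` to `l` are bounded -/
  bnd : ∀ (b : M) (f : M → M), Fn1 f → E b l → (∀ x, E x b → E (f x) l) →
    ∃ c, E c l ∧ ∀ x, E x b → E (f x) c
  sUn : ∀ (b : M) (f : M → M), Fn1 f → E b l → (∀ x, E x b → E (f x) l) →
    E (SW.sUn (SW.img b f)) l
  /-- countable subsets of `l` are bounded -/
  cb : ∀ X, Sub X l → Cb X → ∃ c, E c l ∧ Sub X c
  sz : ∀ (k : ℕ) (X : M), Sub X l → Sz k X → ∃ c, E c l ∧ Sub X c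

/-- RGB -/
def RGBStmt : Prop := ∀ (M : Type) [SetStr M] [ZFC M] (w l : M), Rg w l → RgF w l

/-! ## Part P: conditions -/

/-- QFX: the notion of forcing -/
def QFXStmt : Prop := ∀ (M : Type) [SetStr M] [ZFC M] (w l : M), Rg w l →
  ∃ F : FPoset M, QF w l F

/-- ADD: a new point with a given neighbourhood on top -/
def ADDStmt : Prop := ∀ (M : Type) [SetStr M] [ZFC M] (w l b t A : M), Rg w l →
  E (opair b t) (QP w l) → Top w b A →
  E (opair (suc b) (bun t (prod (sing b) A))) (QP w l) ∧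
  QL (opair (suc b) (bun t (prod (sing b) A))) (opair b t) ∧
  nb (bun t (prod (sing b) A)) b = A

/-- CHQ: the union of an increasing sequence of conditions with empty levels at all stages -/
def CHQStmt : Prop := ∀ (M : Type) [SetStr M] [ZFC M] (w l p0 θ : M) (g : M → M), Rg w l →
  Fn1 g → E θ l → E p0 (QP w l) →
  (∀ i, E i θ → E (g i) (QP w l) ∧ QL (g i) (BL (CC.UP p0 i g))) →
  E (CC.UP p0 θ g) (QP w l) ∧ QL (CC.UP p0 θ g) p0 ∧ ∀ i, E i θ → QL (CC.UP p0 θ g) (g i)

/-- CHA: sequences of conditions of length `θ`: at stage `j` the condition `app p j` (the union of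
all `app g i`, `i ∈ j`, with an empty level added) is given, and an extension `app g j` of it
and `app y j ∈ Y` with `Nx` are chosen -/
def CHAStmt : Prop := ∀ (M : Type) [SetStr M] [ZFC M] (w l θ p0 Y : M)
  (Nx : M → M → M → M → Prop), Rg w l → Df (fun v : Fin 4 → M => Nx (v 0) (v 1) (v 2) (v 3)) →
  E θ l → E p0 (QP w l) →
  (∀ j p, E j θ → E p (QP w l) → QL p p0 → ∃ p' y, E p' (QP w l) ∧ QL p' p ∧ E y Y ∧
    Nx j p p' y) →
  ∃ p g y q, E q (QP w l) ∧ QL q p0 ∧ q = CC.UP p0 θ (fun i => app g i) ∧ ∀ j, E j θ →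
    app p j = BL (CC.UP p0 j (fun i => app g i)) ∧
    E (app p j) (QP w l) ∧ QL (app p j) p0 ∧ E (app g j) (QP w l) ∧ QL (app g j) (app p j) ∧
    E (app y j) Y ∧ Nx j (app p j) (app g j) (app y j) ∧
    (∀ i, E i j → QL (app p j) (app g i)) ∧ QL q (app g j)

/-- DIQ: many decisions -/
def DIQStmt : Prop := ∀ (M : Type) [SetStr M] [ZFC M] (w l p v A : M)
  (D : M → M → M → Prop), Rg w l → Cl3 D → E p (QP w l) → E v l →
  (∀ r r' j y, D r j y → E r' (QP w l) → QL r' r → D r' j y) →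
  (∀ r j, E r (QP w l) → QL r p → E j v → ∃ r' y, E r' (QP w l) ∧ QL r' r ∧ E y A ∧ D r' j y) →
  ∃ q g, E q (QP w l) ∧ QL q p ∧ ∀ j, E j v → E (app g j) A ∧ D q j (app g j)

/-- STP: one step of the construction in WSQ -/
def STPStmt : Prop := ∀ (M : Type) [SetStr M] [ZFC M] (w l p : M)
  (D : M → M → M → Prop), Rg w l → Cl3 D → E p (QP w l) →
  (∀ r r' n m, D r n m → E r' (QP w l) → QL r' r → D r' n m) →
  (∀ r n, E r (QP w l) → QL r p → E n l → ∃ r' m, E r' (QP w l) ∧ QL r' r ∧ E m l ∧ D r' n m) →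
  ∃ p', E p' (QP w l) ∧ QL p' p ∧ ∀ n, E n (CC.fst p) → ∃ m, E m (CC.fst p') ∧ D p' n m

/-- WSQ: a sequence of length `w` gives a condition of height of cofinality `w`, closed under the
forced relation `D` -/
def WSQStmt : Prop := ∀ (M : Type) [SetStr M] [ZFC M] (w l p : M)
  (D : M → M → M → Prop), Rg w l → Cl3 D → E p (QP w l) →
  (∀ r r' n m, D r n m → E r' (QP w l) → QL r' r → D r' n m) →
  (∀ r n, E r (QP w l) → QL r p → E n l → ∃ r' m, E r' (QP w l) ∧ QL r' r ∧ E m l ∧ D r' n m) →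
  ∃ q A, E q (QP w l) ∧ QL q p ∧ Top w (CC.fst q) A ∧ ¬ Cb A ∧
    ∀ n, E n (CC.fst q) → ∃ m, E m (CC.fst q) ∧ D q n m

/-! ## Part G: the extension -/

/-- facts about the embedding of `M` in an extension -/
structure EmbX {M : Type} [SetStr M] [ZF M] (F : FPoset M) (G : M → Prop)
    [ZF (Ext F G)] : Prop where
  app : ∀ f x, emb F G (SW.app f x) = SW.app (emb F G f) (emb F G x)
  fst : ∀ z, emb F G (CC.fst z) = CC.fst (emb F G z)
  snd : ∀ z, emb F G (CC.snd z) = CC.snd (emb F G z)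
  inter : ∀ a b, emb F G (SW.inter a b) = SW.inter (emb F G a) (emb F G b)
  nb : ∀ a b, emb F G (AO.nb a b) = AO.nb (emb F G a) (emb F G b)
  im : ∀ a b, Img a b → Img (emb F G a) (emb F G b)
  cb : ∀ a, Cb a → Cb (emb F G a)
  fre : ∀ a b, Fre a b → Fre (emb F G a) (emb F G b)

/-- EMX -/
def EMXStmt : Prop := ∀ (M : Type) [SetStr M] [ZF M] (F : FPoset M) (G : M → Prop), Gen F G →
  ∀ [ZF (Ext F G)], EmbX F G

/-- QFN: functions on members of `l` with values in a set of `M` are in `M` -/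
def QFNStmt : Prop := ∀ (M : Type) [SetStr M] [ZFC M] [Countable M] (w l : M) (F : FPoset M)
  (G : M → Prop), Rg w l → QF w l F → Gen F G → ∀ [ZFC (Ext F G)] (v A : M)
  (h : Ext F G → Ext F G), E v l → Fn1 h → (∀ i, E i v → E (h (emb F G i)) (emb F G A)) →
  ∃ g : M, (∀ i, E i v → E (app g i) A ∧ h (emb F G i) = emb F G (app g i)) ∧
    gr (emb F G v) h = emb F G (gr v (fun i => app g i))

/-- PRX: what is preserved -/
def PRXStmt : Prop := ∀ (M : Type) [SetStr M] [ZFC M] [Countable M] (w l : M) (F : FPoset M)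
  (G : M → Prop), Rg w l → QF w l F → Gen F G → ∀ [ZFC (Ext F G)],
  pow (om : Ext F G) = emb F G (pow om) ∧ (∀ x : M, Cb (emb F G x) ↔ Cb x) ∧ IsW (emb F G w)

/-- ALX: alephs in the extension -/
def ALXStmt : Prop := ∀ (M : Type) [SetStr M] [ZFC M] [Countable M] (w l : M) (F : FPoset M)
  (G : M → Prop), Rg w l → QF w l F → Gen F G → ∀ [ZFC (Ext F G)] (k : ℕ) (v : M), Alf k v →
  Alf k (emb F G v)

/-- RGX: regularity of `l` in the extension -/
def RGXStmt : Prop := ∀ (M : Type) [SetStr M] [ZFC M] [Countable M] (w l : M) (F : FPoset M)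
  (G : M → Prop), Rg w l → QF w l F → Gen F G → ∀ [ZFC (Ext F G)],
  Rg (emb F G w) (emb F G l)

/-- facts about the generic template -/
structure TgF {M : Type} [SetStr M] [ZF M] (w l : M) (F : FPoset M) (G : M → Prop)
    [ZF (Ext F G)] : Prop where
  mem : ∀ x : Ext F G, E x (TG F G) ↔ ∃ p z, G p ∧ E z (CC.snd p) ∧ x = emb F G z
  nb : ∀ p d, G p → E d (CC.fst p) → nb (TG F G) (emb F G d) = emb F G (nb (CC.snd p) d)
  /-- the heights of the conditions in `G` are unbounded -/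
  ht : ∀ b, E b l → ∃ p, G p ∧ Sub b (CC.fst p) ∧ E b (CC.fst p)
  tc : ∀ p, G p → E (CC.fst p) l ∧ TC w (CC.fst p) (CC.snd p)
  fre : ∀ p, G p → Fre (TG F G) (emb F G (CC.fst p))

/-- TGX -/
def TGXStmt : Prop := ∀ (M : Type) [SetStr M] [ZFC M] [Countable M] (w l : M) (F : FPoset M)
  (G : M → Prop), Rg w l → QF w l F → Gen F G → ∀ [ZFC (Ext F G)], TgF w l F G

/-- UNX: the generic template is not free: every relation `B` of the extension which assigns to
every `n ∈ l` some `m ∈ l` has a closure point whose neighbourhood is uncountable -/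
def UNXStmt : Prop := ∀ (M : Type) [SetStr M] [ZFC M] [Countable M] (w l : M) (F : FPoset M)
  (G : M → Prop), Rg w l → QF w l F → Gen F G → ∀ [ZFC (Ext F G)] (B : Ext F G),
  (∀ n, E n (emb F G l) → ∃ m, E m (emb F G l) ∧ E (opair n m) B) →
  ∃ d, E d (emb F G l) ∧ ¬ Cb (nb (TG F G) d) ∧
    ∀ n, E n d → ∃ m, E m d ∧ E (opair n m) B

/-- TMX: the generic template -/
def TMXStmt : Prop := ∀ (M : Type) [SetStr M] [ZFC M] [Countable M] (w l : M) (F : FPoset M)
  (G : M → Prop), Rg w l → QF w l F → Gen F G → ∀ [ZFC (Ext F G)],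
  Tm (emb F G l) (TG F G)

end AO
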